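import Pool.Agent.helper2.Bis.Defs

/-!
# Module B4: balanced random signs
-/

set_option autoImplicit false

namespace Pool.Agent.helper2.Bis

open Finset

namespace Sg

/-- sum over `range (2 Q)` grouped in pairs -/
lemma sum_pairs (f : ℕ → ℝ) (Q : ℕ) :
    ∑ j ∈ range (2 * Q), f j = ∑ p ∈ range Q, (f (2 * p) + f (2 * p + 1)) := by
  induction Q with
  | zero => simp
  | succ Q ih =>
    rw [show 2 * (Q + 1) = 2 * Q + 1 + 1 by ring, sum_range_succ, sum_range_succ, ih,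
      sum_range_succ]
    ring

/-- the sign of a Boolean -/
noncomputable def bs (b : Bool) : ℝ := if b = true then 1 else -1

lemma bs_cases (b : Bool) : bs b = 1 ∨ bs b = -1 := by
  cases b <;> simp [bs]

/-- sign of the pair `p` -/
noncomputable def ep {Q : ℕ} (ε : Fin Q → Bool) (p : ℕ) : ℝ :=
  if h : p < Q then bs (ε ⟨p, h⟩) else 1

lemma ep_cases {Q : ℕ} (ε : Fin Q → Bool) (p : ℕ) : ep ε p = 1 ∨ ep ε p = -1 := by
  unfold ep
  split_ifs
  · exact bs_cases _
  · left; rfl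

/-- sign of the index `j` -/
noncomputable def sj {Q : ℕ} (ε : Fin Q → Bool) (j : ℕ) : ℝ :=
  if j % 2 = 0 then ep ε (j / 2) else - ep ε (j / 2)

lemma sj_cases {Q : ℕ} (ε : Fin Q → Bool) (j : ℕ) : sj ε j = 1 ∨ sj ε j = -1 := by
  unfold sj
  rcases ep_cases ε (j / 2) with h | h <;> split_ifs <;> simp [h]

lemma sj_even {Q : ℕ} (ε : Fin Q → Bool) (p : ℕ) : sj ε (2 * p) = ep ε p := by
  unfold sj
  rw [if_pos (by omega), show 2 * p / 2 = p by omega]

lemma sj_odd {Q : ℕ} (ε : Fin Q → Bool) (p : ℕ) : sj ε (2 * p + 1) = - ep ε p := by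
  unfold sj
  rw [if_neg (by omega), show (2 * p + 1) / 2 = p by omega]

lemma sum_sj_even {Q : ℕ} (ε : Fin Q → Bool) (a : ℕ) : ∑ j ∈ range (2 * a), sj ε j = 0 := by
  rw [sum_pairs]
  apply sum_eq_zero
  intro p _
  rw [sj_even, sj_odd]
  ring

lemma abs_sum_sj {Q : ℕ} (ε : Fin Q → Bool) (N : ℕ) : |∑ j ∈ range N, sj ε j| ≤ 1 := by
  rcases Nat.even_or_odd' N with ⟨a, rfl | rfl⟩
  · rw [sum_sj_even]; simp
  · rw [sum_range_succ, sum_sj_even, zero_add]
    rcases sj_cases ε (2 * a) with h | h <;> rw [h] <;> simp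

/-- coefficient of the pair `p` in the sum over the index set `T` -/
noncomputable def cf (T : Finset ℕ) (p : ℕ) : ℝ :=
  (if 2 * p ∈ T then 1 else 0) - (if 2 * p + 1 ∈ T then 1 else 0)

lemma sum_T {Q : ℕ} (ε : Fin Q → Bool) (T : Finset ℕ) (hT : T ⊆ range (2 * Q)) :
    ∑ j ∈ T, sj ε j = ∑ p : Fin Q, bs (ε p) * cf T p := by
  have h1 : ∑ j ∈ T, sj ε j = ∑ j ∈ range (2 * Q), if j ∈ T then sj ε j else 0 := by
    rw [← sum_filter]
    congr 1
    ext j
    simp only [mem_filter]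
    constructor
    · intro h; exact ⟨hT h, h⟩
    · intro h; exact h.2
  rw [h1, sum_pairs, ← Fin.sum_univ_eq_sum_range
    (fun p => (if 2 * p ∈ T then sj ε (2 * p) else 0) +
      (if 2 * p + 1 ∈ T then sj ε (2 * p + 1) else 0)) Q]
  apply sum_congr rfl
  intro p _
  rw [sj_even, sj_odd]
  have h2 : ep ε p = bs (ε p) := by
    unfold ep
    rw [dif_pos p.2]
  rw [h2]
  unfold cf
  split_ifs <;> ring

lemma sum_cf_sq {Q : ℕ} (T : Finset ℕ) (hT : T ⊆ range (2 * Q)) :
    ∑ p : Fin Q, (cf T p) ^ 2 ≤ T.card := by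
  have h1 : (T.card : ℝ) = ∑ j ∈ range (2 * Q), if j ∈ T then (1 : ℝ) else 0 := by
    rw [← sum_filter]
    have : (range (2 * Q)).filter (fun j => j ∈ T) = T := by
      ext j
      simp only [mem_filter]
      exact ⟨fun h => h.2, fun h => ⟨hT h, h⟩⟩
    rw [this]
    simp
  rw [h1, sum_pairs, ← Fin.sum_univ_eq_sum_range
    (fun p => (if 2 * p ∈ T then (1 : ℝ) else 0) + (if 2 * p + 1 ∈ T then (1 : ℝ) else 0)) Q]
  apply sum_le_sum
  intro p _
  unfold cf
  split_ifs <;> norm_num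

/-- exponential moment -/
lemma exp_moment (Q : ℕ) (c : Fin Q → ℝ) (l : ℝ) :
    ∑ ε : Fin Q → Bool, Real.exp (l * ∑ p, bs (ε p) * c p) ≤
      2 ^ Q * Real.exp (l ^ 2 / 2 * ∑ p, c p ^ 2) := by
  have h1 : ∀ ε : Fin Q → Bool, Real.exp (l * ∑ p, bs (ε p) * c p) =
      ∏ p, Real.exp (l * (bs (ε p) * c p)) := by
    intro ε
    rw [mul_sum, Real.exp_sum]
  have h2 : ∑ ε : Fin Q → Bool, ∏ p, Real.exp (l * (bs (ε p) * c p)) =
      ∏ p : Fin Q, ∑ b : Bool, Real.exp (l * (bs b * c p)) := by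
    rw [prod_univ_sum, Fintype.piFinset_univ]
  have h3 : ∀ p : Fin Q, ∑ b : Bool, Real.exp (l * (bs b * c p)) ≤
      2 * Real.exp (l ^ 2 / 2 * c p ^ 2) := by
    intro p
    have h4 := Real.cosh_le_exp_half_sq (l * c p)
    rw [Real.cosh_eq] at h4
    have h5 : (l * c p) ^ 2 / 2 = l ^ 2 / 2 * c p ^ 2 := by ring
    rw [h5] at h4
    rw [Fintype.sum_bool]
    have e1 : l * (bs true * c p) = l * c p := by simp [bs]
    have e2 : l * (bs false * c p) = -(l * c p) := by simp [bs]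
    rw [e1, e2]
    linarith
  calc ∑ ε : Fin Q → Bool, Real.exp (l * ∑ p, bs (ε p) * c p)
      = ∏ p : Fin Q, ∑ b : Bool, Real.exp (l * (bs b * c p)) := by
        rw [← h2]; exact sum_congr rfl (fun ε _ => h1 ε)
    _ ≤ ∏ p : Fin Q, (2 * Real.exp (l ^ 2 / 2 * c p ^ 2)) := by
        apply prod_le_prod
        · intro p _
          positivity
        · intro p _
          exact h3 p
    _ = 2 ^ Q * Real.exp (l ^ 2 / 2 * ∑ p, c p ^ 2) := by
        rw [prod_mul_distrib, prod_const, card_univ, Fintype.card_fin, mul_sum, Real.exp_sum]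

/-- one-sided tail -/
lemma tail1 (Q : ℕ) (c : Fin Q → ℝ) (m : ℕ) (hm : 1 ≤ m) (hc : ∑ p, c p ^ 2 ≤ m) (t : ℝ)
    (ht : 0 ≤ t) :
    ((univ.filter (fun ε : Fin Q → Bool => t < ∑ p, bs (ε p) * c p)).card : ℝ) ≤
      2 ^ Q * Real.exp (-(t ^ 2) / (2 * m)) := by
  have hm0 : (0 : ℝ) < m := by exact_mod_cast hm
  set l : ℝ := t / m with hl
  have hl0 : 0 ≤ l := by positivity
  have h1 := exp_moment Q c l
  have h2 : ((univ.filter (fun ε : Fin Q → Bool => t < ∑ p, bs (ε p) * c p)).card : ℝ) *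
      Real.exp (l * t) ≤ ∑ ε : Fin Q → Bool, Real.exp (l * ∑ p, bs (ε p) * c p) := by
    rw [← nsmul_eq_mul, ← sum_const]
    calc ∑ _ε ∈ univ.filter (fun ε : Fin Q → Bool => t < ∑ p, bs (ε p) * c p), Real.exp (l * t)
        ≤ ∑ ε ∈ univ.filter (fun ε : Fin Q → Bool => t < ∑ p, bs (ε p) * c p),
          Real.exp (l * ∑ p, bs (ε p) * c p) := by
          apply sum_le_sum
          intro ε hε
          rw [mem_filter] at hε
          apply Real.exp_le_exp.2
          exact mul_le_mul_of_nonneg_left hε.2.le hl0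
      _ ≤ _ := by
          apply sum_le_sum_of_subset_of_nonneg (filter_subset _ _)
          intro ε _ _
          positivity
  have h3 : Real.exp (l ^ 2 / 2 * ∑ p, c p ^ 2) ≤ Real.exp (l ^ 2 / 2 * m) := by
    apply Real.exp_le_exp.2
    exact mul_le_mul_of_nonneg_left hc (by positivity)
  have h4 : ((univ.filter (fun ε : Fin Q → Bool => t < ∑ p, bs (ε p) * c p)).card : ℝ) *
      Real.exp (l * t) ≤ 2 ^ Q * Real.exp (l ^ 2 / 2 * m) :=
    (h2.trans h1).trans (mul_le_mul_of_nonneg_left h3 (by positivity))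
  have h5 : Real.exp (-(t ^ 2) / (2 * m)) = Real.exp (l ^ 2 / 2 * m) / Real.exp (l * t) := by
    rw [← Real.exp_sub]
    congr 1
    rw [hl]
    field_simp
    ring
  rw [h5, ← mul_div_assoc, le_div_iff₀ (Real.exp_pos _)]
  exact h4

/-- two-sided tail -/
lemma tail2 (Q : ℕ) (c : Fin Q → ℝ) (m : ℕ) (hm : 1 ≤ m) (hc : ∑ p, c p ^ 2 ≤ m) (t : ℝ)
    (ht : 0 ≤ t) :
    ((univ.filter (fun ε : Fin Q → Bool => t < |∑ p, bs (ε p) * c p|)).card : ℝ) ≤
      2 * Real.exp (-(t ^ 2) / (2 * m)) * 2 ^ Q := by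
  have h1 := tail1 Q c m hm hc t ht
  have h2 := tail1 Q (fun p => - c p) m hm (by simpa using hc) t ht
  have h3 : (univ.filter (fun ε : Fin Q → Bool => t < |∑ p, bs (ε p) * c p|)) ⊆
      (univ.filter (fun ε : Fin Q → Bool => t < ∑ p, bs (ε p) * c p)) ∪
      (univ.filter (fun ε : Fin Q → Bool => t < ∑ p, bs (ε p) * (- c p))) := by
    intro ε hε
    rw [mem_filter] at hε
    rw [mem_union, mem_filter, mem_filter]
    rcases lt_abs.1 hε.2 with h | h
    · left; exact ⟨mem_univ _, h⟩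
    · right
      refine ⟨mem_univ _, ?_⟩
      have : ∑ p, bs (ε p) * (- c p) = - ∑ p, bs (ε p) * c p := by
        rw [← sum_neg_distrib]
        exact sum_congr rfl (fun p _ => by ring)
      rw [this]
      exact h
  have h4 := (card_le_card h3).trans (card_union_le _ _)
  have h5 : ((univ.filter (fun ε : Fin Q → Bool => t < |∑ p, bs (ε p) * c p|)).card : ℝ) ≤
      (univ.filter (fun ε : Fin Q → Bool => t < ∑ p, bs (ε p) * c p)).card +
      (univ.filter (fun ε : Fin Q → Bool => t < ∑ p, bs (ε p) * (- c p))).card := by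
    exact_mod_cast h4
  linarith

end Sg

open Sg in
/-- B4: random balanced signs. -/
theorem signs {V I : Type} [Fintype V] [Fintype I] (H : Finset V) (B : I → Finset V)
    (hB : ∀ i, B i ⊆ H) (m : ℕ) (hm : 1 ≤ m) (hcard : ∀ i, (B i).card ≤ m) (t : ℝ) (ht : 0 ≤ t) :
    ∃ s : V → ℝ, (∀ h, s h = 1 ∨ s h = -1) ∧ |∑ h ∈ H, s h| ≤ 1 ∧
      (Set.ncard {i : I | t < |∑ h ∈ B i, s h|} : ℝ) ≤
        2 * Real.exp (-(t ^ 2) / (2 * m)) * Fintype.card I := by
  classical
  set Q : ℕ := H.card with hQ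
  -- an enumeration of `H`
  obtain ⟨k, hkinj, hkim⟩ : ∃ k : V → ℕ, Set.InjOn k (H : Set V) ∧ H.image k = range Q := by
    let φ := H.equivFin
    refine ⟨fun v => if h : v ∈ H then (φ ⟨v, h⟩ : ℕ) else 0, ?_, ?_⟩
    · intro u hu v hv huv
      have hu' : u ∈ H := hu
      have hv' : v ∈ H := hv
      simp only [dif_pos hu', dif_pos hv'] at huv
      have h1 : φ ⟨u, hu'⟩ = φ ⟨v, hv'⟩ := Fin.ext huv
      have h2 := φ.injective h1
      simpa using h2
    · ext j
      rw [mem_image, mem_range]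
      constructor
      · rintro ⟨v, hv, rfl⟩
        rw [dif_pos hv]
        exact (φ ⟨v, hv⟩).2
      · intro hj
        refine ⟨(φ.symm ⟨j, hj⟩ : V), (φ.symm ⟨j, hj⟩).2, ?_⟩
        rw [dif_pos (φ.symm ⟨j, hj⟩).2]
        simp
  -- the index sets
  set T : I → Finset ℕ := fun i => (B i).image k with hT
  have hTsub : ∀ i, T i ⊆ range (2 * Q) := by
    intro i
    have h1 : T i ⊆ H.image k := image_subset_image (hB i)
    rw [hkim] at h1
    exact h1.trans (range_subset_range.2 (by omega))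
  have hTcard : ∀ i, ((T i).card : ℝ) ≤ m := by
    intro i
    have := (card_image_le (s := B i) (f := k)).trans (hcard i)
    exact_mod_cast this
  have hsumT : ∀ (ε : Fin Q → Bool) i, ∑ h ∈ B i, sj ε (k h) = ∑ p : Fin Q, bs (ε p) * cf (T i) p := by
    intro ε i
    rw [← sum_T ε (T i) (hTsub i), hT]
    rw [sum_image]
    exact hkinj.mono (fun x hx => hB i hx)
  have hcf : ∀ i, ∑ p : Fin Q, (cf (T i) p) ^ 2 ≤ (m : ℝ) := fun i =>
    (sum_cf_sq (T i) (hTsub i)).trans (hTcard i)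
  -- first moment
  have hmom : ∑ ε : Fin Q → Bool,
      ((univ.filter (fun i : I => t < |∑ h ∈ B i, sj ε (k h)|)).card : ℝ) ≤
      ∑ _ε : Fin Q → Bool, 2 * Real.exp (-(t ^ 2) / (2 * m)) * Fintype.card I := by
    have h1 : ∑ ε : Fin Q → Bool,
        ((univ.filter (fun i : I => t < |∑ h ∈ B i, sj ε (k h)|)).card : ℝ) =
        ∑ i : I, ((univ.filter (fun ε : Fin Q → Bool =>
          t < |∑ h ∈ B i, sj ε (k h)|)).card : ℝ) := by
      simp only [card_filter]
      push_cast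
      rw [sum_comm]
    rw [h1]
    have h2 : ∀ i : I, ((univ.filter (fun ε : Fin Q → Bool =>
          t < |∑ h ∈ B i, sj ε (k h)|)).card : ℝ) ≤ 2 * Real.exp (-(t ^ 2) / (2 * m)) * 2 ^ Q := by
      intro i
      have h3 := tail2 Q (fun p => cf (T i) p) m hm (hcf i) t ht
      simp only [hsumT]
      exact h3
    calc ∑ i : I, ((univ.filter (fun ε : Fin Q → Bool =>
          t < |∑ h ∈ B i, sj ε (k h)|)).card : ℝ)
        ≤ ∑ _i : I, 2 * Real.exp (-(t ^ 2) / (2 * m)) * 2 ^ Q := sum_le_sum (fun i _ => h2 i)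
      _ = _ := by
        rw [sum_const, sum_const, card_univ, card_univ]
        simp only [nsmul_eq_mul, Fintype.card_pi, Fintype.card_bool, prod_const, card_univ,
          Fintype.card_fin]
        push_cast
        ring
  obtain ⟨ε, -, hε⟩ := exists_le_of_sum_le (univ_nonempty) hmom
  refine ⟨fun v => sj ε (k v), fun h => sj_cases ε (k h), ?_, ?_⟩
  · have h1 : ∑ h ∈ H, sj ε (k h) = ∑ j ∈ range Q, sj ε j := by
      rw [← hkim, sum_image hkinj]
    rw [h1]
    exact abs_sum_sj ε Q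
  · have h1 : {i : I | t < |∑ h ∈ B i, sj ε (k h)|} =
        ((univ.filter (fun i : I => t < |∑ h ∈ B i, sj ε (k h)|) : Finset I) : Set I) := by
      ext i
      simp
    rw [h1, Set.ncard_coe_finset]
    exact hε

end Pool.Agent.helper2.Bis
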